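import Mathlib
import Pool.Agent.Helper69.BQ.St.M3
import Pool.Agent.Helper69.BQ.St.S

/-!
# Project BQ, piece S8
-/

namespace Pool.Agent.Helper25.BQ

open Module NumberField Pool.Agent.Helper25.Biq Pool.Agent.Helper69.BQ
  Pool.Agent.Helper69.BQ.Cert

section abstract

variable {M : Type*} [AddCommGroup M] [Module (ZMod 2) M]

lemma bitz_zero (s : ℕ) : bitz s 0 = if s % 2 = 1 then 1 else 0 := by
  unfold bitz
  simp [Nat.testBit_zero]

lemma bitz_succ (s i : ℕ) : bitz s (i + 1) = bitz (s / 2) i := by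
  unfold bitz
  rw [Nat.testBit_succ]

/-- A map that turns `xor` into sums, on a selected `xor`. -/
lemma map_xorSel (S : ℕ → M) (h0 : S 0 = 0) (hx : ∀ a b, S (a ^^^ b) = S a + S b)
    (l : List ℕ) (s : ℕ) :
    S (xorSel l s) = ∑ i ∈ Finset.range l.length, bitz s i • S (gt l i) := by
  induction l generalizing s with
  | nil => simpa [xorSel] using h0
  | cons c cs ih =>
    rw [xorSel, hx, ih, List.length_cons, Finset.sum_range_succ']
    have e1 : ∀ i, bitz s (i + 1) • S (gt (c :: cs) (i + 1)) = bitz (s / 2) i • S (gt cs i) := by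
      intro i
      rw [bitz_succ]
      rfl
    simp only [e1]
    rw [add_comm]
    congr 1
    rw [bitz_zero]
    by_cases h : s % 2 = 1
    · simp [h, gt]
    · simp [h, gt, h0]

lemma map_xorSel_mem (S : ℕ → M) (h0 : S 0 = 0) (hx : ∀ a b, S (a ^^^ b) = S a + S b)
    (p : Submodule (ZMod 2) M) (l : List ℕ) (s : ℕ) (h : ∀ a ∈ l, S a ∈ p) :
    S (xorSel l s) ∈ p := by
  induction l generalizing s with
  | nil => rw [xorSel, h0]; exact p.zero_mem
  | cons c cs ih =>
    rw [xorSel, hx]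
    refine p.add_mem ?_ (ih _ (fun a ha => h a (List.mem_cons_of_mem _ ha)))
    by_cases hs : s % 2 = 1
    · rw [if_pos hs]; exact h c List.mem_cons_self
    · rw [if_neg hs, h0]; exact p.zero_mem

end abstract

variable {K : Type} [Field K] [NumberField K] [IsGalois ℚ K]

/-- S8. The relations in the submodule. -/
theorem rel_sound {c : Cert} (h1 : c.ok1 = true)
    (hrel : ∀ a ∈ [1, c.d1m, c.d2m, c.r1, c.r2, c.r3],
      sc (algebraMap ℚ K (valM c.ps a : ℤ)) ∈ UCl K) (h7 : c.ok7 = true)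
    (h8 : c.ok8 = true) (j : Fin c.m) :
    sc (algebraMap ℚ K (valM c.ps (gt c.c1 j) : ℤ)) + ∑ k : Fin c.n,
      mat c.m c.n c.A k j • sc (algebraMap ℚ K (valM c.ps (gt c.f k) : ℤ)) ∈ UCl K ∧
    sc (algebraMap ℚ K (valM c.ps (gt c.c2 j) : ℤ)) + ∑ k : Fin c.n,
      mat c.m c.n c.B k j • sc (algebraMap ℚ K (valM c.ps (gt c.f k) : ℤ)) ∈ UCl K := by
  have hps := ok1_primes h1
  have hps' : ∀ p ∈ c.ps, p.Prime ∧ p ≠ 2 := fun p hp => ⟨(hps.1 p hp).1, (hps.1 p hp).2.1⟩
  let S : ℕ → SqCl K := fun a => sc (algebraMap ℚ K (valM c.ps a : ℤ))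
  have hval0 : ∀ a, algebraMap ℚ K (valM c.ps a : ℤ) ≠ 0 := fun a =>
    (map_ne_zero_iff _ (algebraMap ℚ K).injective).2 (supp_valM hps' a).1
  have hx : ∀ a b, S (a ^^^ b) = S a + S b := by
    intro a b
    obtain ⟨q, hq, hqe⟩ := valM_xor hps' hps.2 a b
    have hq' : algebraMap ℚ K q ≠ 0 := (map_ne_zero_iff _ (algebraMap ℚ K).injective).2 hq
    show sc _ = sc _ + sc _
    rw [hqe, map_mul, map_mul, map_pow, sc_mul (mul_ne_zero (hval0 a) (hval0 b))
      (pow_ne_zero 2 hq'), sc_mul (hval0 a) (hval0 b), sc_sq, add_zero]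
  have h0 : S 0 = 0 := by
    have := hx 0 0
    rw [Nat.xor_self] at this
    exact (left_eq_add.1 this)
  have hdbl : ∀ x : SqCl K, x + x = 0 := fun x => by
    have : (2 : ZMod 2) • x = 0 := by
      have h2 : (2 : ZMod 2) = 0 := rfl
      rw [h2, zero_smul]
    rwa [two_smul] at this
  unfold Cert.ok7 at h7
  simp only [Bool.and_eq_true, decide_eq_true_eq] at h7
  have hlen : c.f.length = c.n := h7.1.2
  have key : ∀ (X : List ℕ) (e s : ℕ), e ^^^ xorSel c.f (gt X j) =
      xorSel [1, c.d1m, c.d2m, c.r1, c.r2, c.r3] s →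
      S e + ∑ k : Fin c.n, mat c.m c.n X k j • S (gt c.f k) ∈ UCl K := by
    intro X e s he
    have e1 : ∑ k : Fin c.n, mat c.m c.n X k j • S (gt c.f k) = S (xorSel c.f (gt X j)) := by
      rw [map_xorSel S h0 hx, hlen,
        ← Fin.sum_univ_eq_sum_range (fun k => bitz (gt X j) k • S (gt c.f k))]
      rfl
    rw [e1, ← hx, he]
    exact map_xorSel_mem S h0 hx _ _ _ hrel
  unfold Cert.ok8 at h8
  simp only [Bool.and_eq_true, decide_eq_true_eq, List.all_eq_true, List.mem_range] at h8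
  have h3 := h8 j j.2
  exact ⟨key c.A _ _ h3.1, key c.B _ _ h3.2⟩

end Pool.Agent.Helper25.BQ
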