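import Mathlib
import Pool.Agent.Helper69.BQ.St.E2
import Pool.Agent.Helper69.BQ.St.M2
import Pool.Agent.Helper69.BQ.St.S

/-!
# Project BQ, pieces S8, S9
-/

namespace Pool.Agent.Helper25.BQ

open Module NumberField Pool.Agent.Helper25.Biq Pool.Agent.Helper69.BQ
  Pool.Agent.Helper69.BQ.Cert

variable {K : Type} [Field K] [NumberField K] [IsGalois ℚ K]

/-- S9. The dual family. -/
lemma psi_dual {c : Cert} (h1 : c.ok1 = true) (h7 : c.ok7 = true) (k : Fin c.n) :
    psiF c (valM c.ps (gt c.f k) : ℤ) = Pi.single k 1 := by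
  have hps := ok1_primes h1
  have hps' : ∀ p ∈ c.ps, p.Prime ∧ p ≠ 2 := fun p hp => ⟨(hps.1 p hp).1, (hps.1 p hp).2.1⟩
  funext j
  have e1 : psiF c (valM c.ps (gt c.f k) : ℤ) j =
      dot c.N (bitz (gt c.f k)) (gt c.psi j) := by
    show dot c.N (co c.ps ((valM c.ps (gt c.f k) : ℤ) : ℚ)) (gt c.psi j) = _
    unfold dot
    apply Finset.sum_congr rfl
    intro i hi
    rw [Finset.mem_range] at hi
    rw [co_valM hps' hps.2 _ i hi]
  rw [e1, dot_bitz]
  unfold Cert.ok7 at h7
  simp only [Bool.and_eq_true, decide_eq_true_eq, List.all_eq_true, List.mem_range,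
    beq_iff_eq] at h7
  have h2 := h7.2 j j.2 k k.2
  rw [h2]
  by_cases hjk : j = k
  · subst hjk; simp
  · have : (j : ℕ) ≠ k := fun h => hjk (Fin.ext h)
    simp [this, Pi.single_eq_of_ne hjk]

/-- S10. The left inverse. -/
lemma left_inv {c : Cert} (h9 : c.ok9 = true) (j : Fin c.m) :
    ((matR c.m c.n c.L1).mulVec fun k => mat c.m c.n c.A k j) +
      ((matR c.m c.n c.L2).mulVec fun k => mat c.m c.n c.B k j) = Pi.single j 1 := by
  have key : ∀ (X Y : List ℕ) (i : Fin c.m),
      ((matR c.m c.n X).mulVec fun k => mat c.m c.n Y k j) i =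
        if par c.n (gt X i &&& gt Y j) then 1 else 0 := by
    intro X Y i
    rw [← dot_bitz]
    unfold dot
    rw [← Fin.sum_univ_eq_sum_range (fun k => bitz (gt X i) k * bitz (gt Y j) k)]
    rfl
  funext i
  rw [Pi.add_apply, key, key]
  unfold Cert.ok9 at h9
  simp only [List.all_eq_true, List.mem_range, beq_iff_eq] at h9
  have h2 := h9 j j.2 i i.2
  by_cases hij : i = j
  · subst hij
    rw [Pi.single_eq_same]
    rcases hb1 : par c.n (gt c.L1 i &&& gt c.A i) <;>
      rcases hb2 : par c.n (gt c.L2 i &&& gt c.B i) <;>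
      simp_all
  · rw [Pi.single_eq_of_ne hij]
    have hij' : (j : ℕ) ≠ i := fun h => hij (Fin.ext h.symm)
    rcases hb1 : par c.n (gt c.L1 i &&& gt c.A j) <;>
      rcases hb2 : par c.n (gt c.L2 i &&& gt c.B j) <;>
      simp_all <;> decide

/-- S11. The generators. -/
lemma gens_exist {c : Cert} (D : Dat K c.g12 c.g13 c.g23) (h1 : c.ok1 = true)
    (h10 : c.ok10 = true) (j : Fin c.m) : ∃ t : TT K,
      toQ (t + act D.σ t) = (UCl K).mkQ (sc (algebraMap ℚ K (valM c.ps (gt c.c1 j) : ℤ))) ∧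
      toQ (t + act D.τ t) = (UCl K).mkQ (sc (algebraMap ℚ K (valM c.ps (gt c.c2 j) : ℤ))) := by
  obtain ⟨-, h4, h2⟩ := ok1_arith h1
  unfold Cert.ok10 at h10
  simp only [Bool.and_eq_true, decide_eq_true_eq, List.all_eq_true, List.mem_range] at h10
  have h3 := h10.2 j j.2
  split at h3
  · exact absurd h3 (by simp)
  · exact gen_exists D h2 h4 h3

end Pool.Agent.Helper25.BQ
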